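import Pool.Agent.Helper1.UQ.St1

/-!
# Project UQ, module CLO: closing edges is deleting them
-/

set_option autoImplicit false

open Finset

namespace Pool.Agent.Helper81.UQ

open Classical Pool.Agent.Helper30.RCU Pool.Agent.Helper1.UQ

universe u

variable {V ι : Type u} {φ : ι → Sym2 V} {p : ι → ℝ} {q : ℝ}

lemma clo_first {E T : Finset ι} (hTE : T ⊆ E) (f : Finset ι → ℝ) :
    S φ p q E (fun ω => nt T ω * f ω) = (∏ e ∈ T, (1 - p e)) * S φ p q (E \ T) f := by
  unfold S
  rw [Finset.mul_sum]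
  have hsub : (E \ T).powerset ⊆ E.powerset := Finset.powerset_mono.mpr Finset.sdiff_subset
  rw [← Finset.sum_subset hsub]
  · refine Finset.sum_congr rfl fun ω hω => ?_
    have hω' := mem_powerset.mp hω
    have hdis : Disjoint ω T := Finset.disjoint_of_subset_left hω' Finset.sdiff_disjoint
    have h1 : nt T ω = 1 := by unfold nt; rw [if_pos hdis]
    have h2 : E \ ω = T ∪ ((E \ T) \ ω) := by
      ext x
      simp only [mem_sdiff, mem_union]
      constructor
      · rintro ⟨ha, hb⟩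
        by_cases hx : x ∈ T
        · exact Or.inl hx
        · exact Or.inr ⟨⟨ha, hx⟩, hb⟩
      · rintro (ha | ⟨⟨ha, _⟩, hb⟩)
        · exact ⟨hTE ha, fun hb => (Finset.disjoint_left.mp hdis hb) ha⟩
        · exact ⟨ha, hb⟩
    have h3 : Disjoint T ((E \ T) \ ω) :=
      Finset.disjoint_of_subset_right Finset.sdiff_subset Finset.disjoint_sdiff
    have h4 : wt φ p q E ω = (∏ e ∈ T, (1 - p e)) * wt φ p q (E \ T) ω := by
      unfold wt
      rw [h2, Finset.prod_union h3]
      ring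
    simp only [h1, h4]
    ring
  · intro ω hω hn
    have hnd : ¬ Disjoint ω T := by
      intro hd
      apply hn
      rw [mem_powerset] at hω ⊢
      intro x hx
      exact mem_sdiff.mpr ⟨hω hx, fun hxT => (Finset.disjoint_left.mp hd hx) hxT⟩
    have h1 : nt T ω = 0 := by unfold nt; rw [if_neg hnd]
    simp only [h1]
    ring

lemma clo_second (hp : ∀ e, 0 ≤ p e) (hp1 : ∀ e, p e ≤ 1) (hq : 1 ≤ q) {E T : Finset ι}
    (hTE : T ⊆ E) :
    cl φ p q E T * S φ p q E (fun _ => 1) =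
      (∏ e ∈ T, (1 - p e)) * S φ p q (E \ T) (fun _ => 1) := by
  rw [← clo_first hTE]
  unfold cl ex
  rw [div_mul_cancel₀ _ (S_one_pos hp hp1 hq E).ne']
  simp only [mul_one]

theorem hCLO : Pool.Agent.Helper1.UQ.StCLO := by
  intro V ι φ p q hp hp1 hq E T hTE
  refine ⟨fun f => clo_first hTE f, clo_second hp hp1 hq hTE, ?_⟩
  intro T1 hT1
  have hZ : S φ p q E (fun _ => 1) ≠ 0 := (S_one_pos hp hp1 hq E).ne'
  have a1 := clo_second (φ := φ) hp hp1 hq hTE
  have a2 := clo_second (φ := φ) hp hp1 hq (hT1.trans hTE)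
  have a3 := clo_second (φ := φ) hp hp1 hq
    (show T \ T1 ⊆ E \ T1 from Finset.sdiff_subset_sdiff hTE (Finset.Subset.refl _))
  have h5 : (E \ T1) \ (T \ T1) = E \ T := by
    ext x
    simp only [mem_sdiff, not_and, not_not]
    constructor
    · rintro ⟨⟨ha, hb⟩, hc⟩
      exact ⟨ha, fun h => hb (hc h)⟩
    · rintro ⟨ha, hb⟩
      exact ⟨⟨ha, fun h => hb (hT1 h)⟩, fun h => absurd h hb⟩
  have h6 : (∏ e ∈ T1, (1 - p e)) * ∏ e ∈ T \ T1, (1 - p e) = ∏ e ∈ T, (1 - p e) := by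
    rw [mul_comm]
    exact Finset.prod_sdiff hT1
  rw [h5] at a3
  apply mul_right_cancel₀ hZ
  calc cl φ p q E T * S φ p q E (fun _ => 1)
      = (∏ e ∈ T, (1 - p e)) * S φ p q (E \ T) (fun _ => 1) := a1
    _ = (∏ e ∈ T1, (1 - p e)) *
        ((∏ e ∈ T \ T1, (1 - p e)) * S φ p q (E \ T) (fun _ => 1)) := by
          rw [← mul_assoc, h6]
    _ = cl φ p q (E \ T1) (T \ T1) *
        ((∏ e ∈ T1, (1 - p e)) * S φ p q (E \ T1) (fun _ => 1)) := by
          rw [← a3]; ring
    _ = cl φ p q E T1 * cl φ p q (E \ T1) (T \ T1) * S φ p q E (fun _ => 1) := by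
          rw [← a2]; ring

end Pool.Agent.Helper81.UQ
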